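import Pool.Agent.V1193.LE.B

set_option autoImplicit false

/-! Assembly. -/

namespace Pool.Agent.V1193.LE

open Finset Filter Topology MeasureTheory
open Pool.Agent.Y122.PC (Bx W ff_W eg I F far near mean_level measurable_Bx)

lemma summable_Ev {x0 x1 y0 y1 : ℝ} (hx0 : 0 < x0) (hx : x0 < x1) (hy : y0 < y1) {S : Set ℕ}
    (hs : Summable (wt S)) :
    Summable fun p => (volume.restrict (Bx x0 x1 y0 y1)).real (Ev S p) := by
  set L := eg * Real.log (x1 / x0) * (y1 - y0) with hL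
  refine Summable.of_norm_bounded_eventually_nat (g := fun p => (1 + |L|) * wt S p)
    (hs.mul_left _) ?_
  filter_upwards [one_law hx0 hx hy S 1 one_pos] with p hp
  rw [Real.norm_of_nonneg measureReal_nonneg]
  have h1 := (abs_le.1 hp).2
  have h2 := wt_nonneg S p
  have h3 : L * wt S p ≤ |L| * wt S p := mul_le_mul_of_nonneg_right (le_abs_self L) h2
  rw [← hL] at h1
  nlinarith

/-- almost every pair has finitely many exponents in `S` -/
theorem finite_ae {S : Set ℕ} (hs : Summable (wt S)) :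
    ∀ᵐ z : ℝ × ℝ, 0 < z.1 → {p | z ∈ Ev S p}.Finite := by
  have h1 : ∀ k : ℕ, ∀ᵐ z : ℝ × ℝ, z ∈ Bx (1 / ((k : ℝ) + 1)) (1 / ((k : ℝ) + 1) + k + 1)
      (-(k : ℝ) - 1) (k + 1) → {p | z ∈ Ev S p}.Finite := by
    intro k
    have hk : (0 : ℝ) ≤ k := Nat.cast_nonneg k
    refine (ae_restrict_iff' (measurable_Bx _ _ _ _)).1 ?_
    exact fin (summable_Ev (by positivity) (by linarith) (by linarith) hs)
  rw [← ae_all_iff] at h1
  filter_upwards [h1] with z hz h0
  obtain ⟨k1, hk1⟩ := exists_nat_one_div_lt h0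
  obtain ⟨k2, hk2⟩ := exists_nat_ge (z.1)
  obtain ⟨k3, hk3⟩ := exists_nat_ge (|z.2|)
  set k := max k1 (max k2 k3) with hk
  have c1 : (k1 : ℝ) ≤ k := by exact_mod_cast le_max_left _ _
  have c2 : (k2 : ℝ) ≤ k := by exact_mod_cast (le_max_left _ _).trans (le_max_right _ _)
  have c3 : (k3 : ℝ) ≤ k := by exact_mod_cast (le_max_right _ _).trans (le_max_right _ _)
  have c4 := abs_le.1 hk3
  have c5 : (0 : ℝ) < 1 / ((k : ℝ) + 1) := by positivity
  refine hz k ⟨⟨?_, ?_⟩, ?_, ?_⟩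
  · have : 1 / ((k : ℝ) + 1) ≤ 1 / ((k1 : ℝ) + 1) :=
      one_div_le_one_div_of_le (by positivity) (by linarith)
    linarith
  · linarith
  · linarith [c4.1]
  · linarith [c4.2]

theorem final {x0 x1 y0 y1 : ℝ} (hx0 : 0 < x0) (hx : x0 < x1) (hy : y0 < y1) {S : Set ℕ}
    (hinf : S.Infinite) (hs : Summable (wt S)) :
    Tendsto (fun n => (volume.restrict (Bx x0 x1 y0 y1)).real {z | ∃ p, n ≤ p ∧ z ∈ Ev S p} /
      T (wt S) n) atTop (𝓝 (eg * Real.log (x1 / x0) * (y1 - y0))) ∧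
    Tendsto (fun n => (∫ z in Bx x0 x1 y0 y1, (({p | n ≤ p ∧ z ∈ Ev S p}).ncard : ℝ)) /
      T (wt S) n) atTop (𝓝 (eg * Real.log (x1 / x0) * (y1 - y0))) ∧
    Tendsto (fun p => (volume.restrict (Bx x0 x1 y0 y1)).real (Last (Ev S) p) / wt S p)
      (atTop ⊓ 𝓟 S) (𝓝 (eg * Real.log (x1 / x0) * (y1 - y0))) ∧
    ∃ K : ℝ, ∀ᶠ n : ℕ in atTop, (volume.restrict (Bx x0 x1 y0 y1)).real
      {z | ∃ p q, n ≤ p ∧ p < q ∧ z ∈ Ev S p ∧ z ∈ Ev S q} ≤ K * T (wt S) n ^ 2 := by
  have hw := wt_nonneg S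
  have hpos : ∀ p ∈ S, 2 ≤ p → 0 < wt S p := by
    intro p hp h2
    have h2' : (2 : ℝ) ≤ p := by exact_mod_cast h2
    have : wt S p = Real.log p / p := Set.indicator_of_mem hp _
    rw [this]
    exact div_pos (Real.log_pos (by linarith)) (by linarith)
  have hinf' : ∀ n, ∃ p ≥ n, 0 < wt S p := by
    intro n
    obtain ⟨p, hp, h⟩ := hinf.exists_gt (max n 2)
    exact ⟨p, ((le_max_left _ _).trans h.le), hpos p hp ((le_max_right _ _).trans h.le)⟩
  have hq := one_law hx0 hx hy S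
  have hsum := summable_Ev hx0 hx hy hs
  obtain ⟨K, hK, N, hpair⟩ := pair_law hx0 hx hy S
  have hlast := last_law (meas_Ev S) hw hs hK hq hpair
  have hsub : ∀ m, Last (Ev S) m ⊆ Ev S m := fun m y hy => hy.1
  have hsum' : Summable fun m => (volume.restrict (Bx x0 x1 y0 y1)).real (Last (Ev S) m) :=
    Summable.of_nonneg_of_le (fun m => measureReal_nonneg) (fun m => measureReal_mono (hsub m)) hsum
  refine ⟨?_, ?_, ?_, K, ?_⟩
  · refine (average hw hs hsum' hinf' hlast).congr fun n => ?_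
    rw [tail_eq (meas_Ev S) hsum]
  · refine (average hw hs hsum hinf' hq).congr fun n => ?_
    rw [mean_eq (meas_Ev S) hsum]
  · rw [Metric.tendsto_nhds]
    intro ε hε
    rw [eventually_inf_principal]
    filter_upwards [hlast (ε / 2) (by positivity), eventually_ge_atTop 2] with p h1 h2 hp
    have h3 := hpos p hp h2
    rw [Real.dist_eq]
    have e : (volume.restrict (Bx x0 x1 y0 y1)).real (Last (Ev S) p) / wt S p -
        eg * Real.log (x1 / x0) * (y1 - y0) =
        ((volume.restrict (Bx x0 x1 y0 y1)).real (Last (Ev S) p) -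
          (eg * Real.log (x1 / x0) * (y1 - y0)) * wt S p) / wt S p := by
      field_simp
    rw [e, abs_div, abs_of_pos h3, div_lt_iff₀ h3]
    nlinarith
  · filter_upwards [eventually_ge_atTop N] with n hn
    exact two_le hw hs hK hpair hn

end Pool.Agent.V1193.LE
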