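import Pool.Agent.V1193.LE.A
import Pool.Agent.Y122.PC.Fin

set_option autoImplicit false

/-! The last exponent in a set of finite weight, in the mean over base and amplitude. -/

namespace Pool.Agent.V1193.LE

open Finset Filter Topology MeasureTheory
open Pool.Agent.H305R2 (ff measurable_ff ff_nonneg ff_le_one)
open Pool.Agent.Y122.PC (Bx W ff_W eg I F far near mean_level)

/-- the weights -/
noncomputable def wt (S : Set ℕ) : ℕ → ℝ := S.indicator fun p : ℕ => Real.log p / p

lemma wt_nonneg (S : Set ℕ) (p : ℕ) : 0 ≤ wt S p :=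
  Set.indicator_nonneg (fun p _ => div_nonneg (Real.log_natCast_nonneg p) (Nat.cast_nonneg p)) p

/-- the events -/
def Ev (S : Set ℕ) (p : ℕ) : Set (ℝ × ℝ) := {z | p ∈ S ∧ (W z.1 z.2 p).Prime}

lemma meas_W (p : ℕ) : MeasurableSet {z : ℝ × ℝ | (W z.1 z.2 p).Prime} := by
  have h : Measurable fun z : ℝ × ℝ => ff p (p * z.1 + z.2) := (measurable_ff p).comp (by fun_prop)
  have h2 := h (measurableSet_singleton (1 : ℝ))
  convert h2 using 1
  ext z
  simp only [Set.mem_ofPred_eq, Set.mem_preimage, Set.mem_singleton_iff, ff_W]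
  by_cases a : (W z.1 z.2 p).Prime <;> simp [a]

lemma meas_Ev (S : Set ℕ) (p : ℕ) : MeasurableSet (Ev S p) := by
  by_cases hp : p ∈ S
  · have : Ev S p = {z : ℝ × ℝ | (W z.1 z.2 p).Prime} := by
      ext z; exact ⟨fun h => h.2, fun h => ⟨hp, h⟩⟩
    rw [this]; exact meas_W p
  · have : Ev S p = ∅ := by
      ext z
      simp only [Set.mem_empty_iff_false, iff_false]
      exact fun h => hp h.1
    rw [this]; exact MeasurableSet.empty

lemma real_W (x0 x1 y0 y1 : ℝ) (p : ℕ) :
    (volume.restrict (Bx x0 x1 y0 y1)).real {z : ℝ × ℝ | (W z.1 z.2 p).Prime} =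
      ∫ z in Bx x0 x1 y0 y1, ff p (p * z.1 + z.2) := by
  have e : (fun z : ℝ × ℝ => ff p (p * z.1 + z.2)) =
      ({z : ℝ × ℝ | (W z.1 z.2 p).Prime}).indicator (fun _ => (1 : ℝ)) := by
    funext z
    rw [Set.indicator_apply, ff_W]
    rfl
  rw [e, integral_indicator_const _ (meas_W p), smul_eq_mul, mul_one]

lemma real_WW (x0 x1 y0 y1 : ℝ) (p q : ℕ) :
    (volume.restrict (Bx x0 x1 y0 y1)).real
      ({z : ℝ × ℝ | (W z.1 z.2 p).Prime} ∩ {z : ℝ × ℝ | (W z.1 z.2 q).Prime}) =
      I x0 x1 y0 y1 p q := by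
  have e : (fun z : ℝ × ℝ => F p q z) =
      ({z : ℝ × ℝ | (W z.1 z.2 p).Prime} ∩ {z : ℝ × ℝ | (W z.1 z.2 q).Prime}).indicator
        (fun _ => (1 : ℝ)) := by
    funext z
    unfold F
    rw [ff_W, ff_W]
    by_cases a : (W z.1 z.2 p).Prime
    · by_cases b : (W z.1 z.2 q).Prime
      · rw [if_pos a, if_pos b, Set.indicator_of_mem (show z ∈ _ ∩ _ from ⟨a, b⟩), one_mul]
      · rw [if_neg b, mul_zero, Set.indicator_of_notMem (fun h => b h.2)]
    · rw [if_neg a, zero_mul, Set.indicator_of_notMem (fun h => a h.1)]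
  unfold I
  rw [e, integral_indicator_const _ ((meas_W p).inter (meas_W q)), smul_eq_mul, mul_one]

/-- the first moment -/
lemma one_law {x0 x1 y0 y1 : ℝ} (hx0 : 0 < x0) (hx : x0 < x1) (hy : y0 < y1) (S : Set ℕ) :
    ∀ ε > 0, ∀ᶠ p : ℕ in atTop, |(volume.restrict (Bx x0 x1 y0 y1)).real (Ev S p) -
      (eg * Real.log (x1 / x0) * (y1 - y0)) * wt S p| ≤ ε * wt S p := by
  intro ε hε
  have h := mean_level hx0 hx hy
  have h2 := (Metric.tendsto_nhds.1 h) ε hε
  filter_upwards [h2, eventually_ge_atTop 3] with p hp hp3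
  by_cases hS : p ∈ S
  · have e : Ev S p = {z : ℝ × ℝ | (W z.1 z.2 p).Prime} := by
      ext z; exact ⟨fun h => h.2, fun h => ⟨hS, h⟩⟩
    have hw : wt S p = Real.log p / p := Set.indicator_of_mem hS _
    have hp3' : (3 : ℝ) ≤ p := by exact_mod_cast hp3
    have hp0 : (0 : ℝ) < p := by linarith
    have hl : 0 < Real.log p := Real.log_pos (by linarith)
    have hw0 : 0 < Real.log p / p := by positivity
    rw [e, real_W, hw]
    rw [Real.dist_eq] at hp
    set J := ∫ z in Bx x0 x1 y0 y1, ff p (p * z.1 + z.2)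
    set L := eg * Real.log (x1 / x0) * (y1 - y0)
    have e2 : J - L * (Real.log p / p) = (J * (p / Real.log p) - L) * (Real.log p / p) := by
      field_simp
    rw [e2, abs_mul, abs_of_pos hw0]
    exact mul_le_mul_of_nonneg_right hp.le hw0.le
  · have e : Ev S p = ∅ := by
      ext z
      simp only [Set.mem_empty_iff_false, iff_false]
      exact fun h => hS h.1
    have hw : wt S p = 0 := Set.indicator_of_notMem hS _
    rw [e, hw]
    simp

/-- pairs -/
lemma pair_law {x0 x1 y0 y1 : ℝ} (hx0 : 0 < x0) (hx : x0 < x1) (hy : y0 < y1) (S : Set ℕ) :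
    ∃ K : ℝ, 0 ≤ K ∧ ∃ N : ℕ, ∀ p ≥ N, ∀ q > p,
      (volume.restrict (Bx x0 x1 y0 y1)).real (Ev S p ∩ Ev S q) ≤ K * wt S p * wt S q := by
  obtain ⟨N1, hfar⟩ := far hx0 hx hy (ε := 1) (δ := 1 / 3) one_pos (by norm_num)
  obtain ⟨K2, hK2, N2, hnear⟩ := near x1 y0 y1 hx0 (R := 3) (by norm_num)
  set T := Pool.Agent.Y122.PC.T x0 x1 y0 y1 with hT
  have hT0 : 0 ≤ T := by
    rw [hT, ← Pool.Agent.Y122.PC.int_T hx0 hx.le hy.le]
    exact integral_nonneg fun z => mul_self_nonneg _
  refine ⟨(T + 1) + K2, by positivity, max (max N1 N2) 3, fun p hp q hq => ?_⟩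
  have hpN1 : N1 ≤ p := le_trans ((le_max_left _ _).trans (le_max_left _ _)) hp
  have hpN2 : N2 ≤ p := le_trans ((le_max_right _ _).trans (le_max_left _ _)) hp
  have hp3 : 3 ≤ p := le_trans (le_max_right _ _) hp
  have hp3' : (3 : ℝ) ≤ p := by exact_mod_cast hp3
  have hpq : (p : ℝ) < q := by exact_mod_cast hq
  have hp0 : (0 : ℝ) < p := by linarith
  have hq0 : (0 : ℝ) < q := by linarith
  by_cases hS : p ∈ S ∧ q ∈ S
  · obtain ⟨h1, h2⟩ := hS
    have e1 : Ev S p = {z : ℝ × ℝ | (W z.1 z.2 p).Prime} := by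
      ext z; exact ⟨fun h => h.2, fun h => ⟨h1, h⟩⟩
    have e2 : Ev S q = {z : ℝ × ℝ | (W z.1 z.2 q).Prime} := by
      ext z; exact ⟨fun h => h.2, fun h => ⟨h2, h⟩⟩
    have w1 : wt S p = Real.log p / p := Set.indicator_of_mem h1 _
    have w2 : wt S q = Real.log q / q := Set.indicator_of_mem h2 _
    have hl : 0 < Real.log p := Real.log_pos (by linarith)
    have hl' : 0 < Real.log q := Real.log_pos (by linarith)
    have hw0 : 0 < (Real.log p / p) * (Real.log q / q) := by positivity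
    rw [e1, e2, real_WW, w1, w2]
    rcases le_or_gt (2 * (p : ℝ)) q with h3 | h3
    · have h4 := hfar p q hpN1 (by omega) (by rw [abs_of_pos (by linarith)]; linarith)
      have h5 := (abs_le.1 h4).2
      have e3 : I x0 x1 y0 y1 p q = (I x0 x1 y0 y1 p q * ((p / Real.log p) * (q / Real.log q))) *
          ((Real.log p / p) * (Real.log q / q)) := by
        field_simp
      rw [e3]
      calc _ ≤ (T + 1) * ((Real.log p / p) * (Real.log q / q)) :=
            mul_le_mul_of_nonneg_right (by linarith) hw0.le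
        _ ≤ _ := by nlinarith
    · have h4 := hnear p q hpN2 (by omega) (by omega) (by linarith) (by linarith)
      calc _ ≤ K2 * ((Real.log p / p) * (Real.log q / q)) := h4
        _ ≤ _ := by nlinarith
  · have e : Ev S p ∩ Ev S q = ∅ := by
      ext z
      simp only [Set.mem_empty_iff_false, iff_false]
      exact fun h => hS ⟨h.1.1, h.2.1⟩
    rw [e]
    simp only [measureReal_empty]
    exact mul_nonneg (mul_nonneg (by positivity) (wt_nonneg _ _)) (wt_nonneg _ _)

end Pool.Agent.V1193.LE
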