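import Mathlib

set_option autoImplicit false

/-! The last index of a random set of naturals of finite mean: general weights. -/

namespace Pool.Agent.V1193.LE

open Finset Filter Topology MeasureTheory

/-- the tail sum -/
noncomputable def T (w : ℕ → ℝ) (n : ℕ) : ℝ := ∑' k : ℕ, w (n + k)

lemma T_nonneg {w : ℕ → ℝ} (hw : ∀ p, 0 ≤ w p) (n : ℕ) : 0 ≤ T w n := tsum_nonneg fun _ => hw _

lemma summable_T {w : ℕ → ℝ} (hs : Summable w) (n : ℕ) : Summable fun k : ℕ => w (n + k) := by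
  have := (summable_nat_add_iff n).2 hs
  refine this.congr fun k => ?_
  rw [add_comm]

lemma T_pos {w : ℕ → ℝ} (hw : ∀ p, 0 ≤ w p) (hs : Summable w) (hinf : ∀ n, ∃ p ≥ n, 0 < w p)
    (n : ℕ) : 0 < T w n := by
  obtain ⟨p, hp, h⟩ := hinf n
  refine (summable_T hs n).tsum_pos (fun _ => hw _) (p - n) ?_
  rw [show n + (p - n) = p by omega]
  exact h

lemma T_tendsto {w : ℕ → ℝ} : Tendsto (T w) atTop (𝓝 0) := by
  have h := tendsto_sum_nat_add w
  refine h.congr fun n => ?_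
  unfold T
  refine tsum_congr fun k => ?_
  rw [add_comm]

/-- weighted averages -/
theorem average {a w : ℕ → ℝ} {L : ℝ} (hw : ∀ p, 0 ≤ w p) (hs : Summable w) (ha : Summable a)
    (hinf : ∀ n, ∃ p ≥ n, 0 < w p)
    (h : ∀ ε > 0, ∀ᶠ p : ℕ in atTop, |a p - L * w p| ≤ ε * w p) :
    Tendsto (fun n => T a n / T w n) atTop (𝓝 L) := by
  rw [Metric.tendsto_atTop]
  intro ε hε
  obtain ⟨N, hN⟩ := eventually_atTop.1 (h (ε / 2) (by positivity))
  refine ⟨N, fun n hn => ?_⟩
  have hT := T_pos hw hs hinf n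
  have h1 : |T a n - L * T w n| ≤ ε / 2 * T w n := by
    have e : T a n - L * T w n = ∑' k : ℕ, (a (n + k) - L * w (n + k)) := by
      unfold T
      rw [← tsum_mul_left, (summable_T ha n).tsum_sub ((summable_T hs n).mul_left L)]
    rw [e, ← Real.norm_eq_abs]
    refine tsum_of_norm_bounded (g := fun k => ε / 2 * w (n + k)) ?_ fun k => ?_
    · exact (summable_T hs n).hasSum.mul_left _
    · rw [Real.norm_eq_abs]
      exact hN (n + k) (by omega)
  rw [Real.dist_eq]
  have h2 : T a n / T w n - L = (T a n - L * T w n) / T w n := by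
    field_simp
  rw [h2, abs_div, abs_of_pos hT, div_lt_iff₀ hT]
  nlinarith

variable {Ω : Type*} [MeasurableSpace Ω] {μ : Measure Ω} [IsFiniteMeasure μ]

/-- the points for which `m` is the last index -/
def Last (S : ℕ → Set Ω) (m : ℕ) : Set Ω := {y | IsGreatest {k | y ∈ S k} m}

lemma last_eq (S : ℕ → Set Ω) (m : ℕ) :
    Last S m = S m \ (S m ∩ ⋃ k : ℕ, S (m + 1 + k)) := by
  ext y
  constructor
  · rintro ⟨h1, h2⟩
    refine ⟨h1, fun h3 => ?_⟩
    obtain ⟨k, hk⟩ := Set.mem_iUnion.1 h3.2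
    have := h2 (show (m + 1 + k) ∈ {k | y ∈ S k} from hk)
    omega
  · rintro ⟨h1, h2⟩
    refine ⟨h1, fun k hk => ?_⟩
    by_contra h3
    refine h2 ⟨h1, Set.mem_iUnion.2 ⟨k - (m + 1), ?_⟩⟩
    rw [show m + 1 + (k - (m + 1)) = k by omega]
    exact hk

lemma last_meas {S : ℕ → Set Ω} (hS : ∀ m, MeasurableSet (S m)) (m : ℕ) :
    MeasurableSet (Last S m) := by
  rw [last_eq]
  exact (hS m).diff ((hS m).inter (MeasurableSet.iUnion fun k => hS _))

/-- Borel–Cantelli -/
lemma fin {S : ℕ → Set Ω} (h : Summable fun m => μ.real (S m)) :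
    ∀ᵐ y ∂μ, {m | y ∈ S m}.Finite := by
  refine ae_finite_setOfPred_mem ?_
  have e : ∀ m, μ (S m) = ENNReal.ofReal (μ.real (S m)) := by
    intro m
    rw [Measure.real, ENNReal.ofReal_toReal (measure_ne_top _ _)]
  simp only [e]
  exact h.tsum_ofReal_ne_top

/-- the law of the last index: masses -/
theorem last_law {S : ℕ → Set Ω} (hS : ∀ m, MeasurableSet (S m)) {w : ℕ → ℝ} {L K : ℝ} {N : ℕ}
    (hw : ∀ p, 0 ≤ w p) (hs : Summable w) (hK : 0 ≤ K)
    (hq : ∀ ε > 0, ∀ᶠ p : ℕ in atTop, |μ.real (S p) - L * w p| ≤ ε * w p)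
    (hpair : ∀ p ≥ N, ∀ q > p, μ.real (S p ∩ S q) ≤ K * w p * w q) :
    ∀ ε > 0, ∀ᶠ p : ℕ in atTop, |μ.real (Last S p) - L * w p| ≤ ε * w p := by
  intro ε hε
  have h1 : ∀ᶠ p : ℕ in atTop, K * T w (p + 1) < ε / 2 := by
    have h2 := ((T_tendsto (w := w)).comp (tendsto_add_atTop_nat 1)).const_mul K
    rw [mul_zero] at h2
    exact h2.eventually_lt_const (by positivity)
  filter_upwards [hq (ε / 2) (by positivity), h1, eventually_ge_atTop N] with p h2 h3 h4
  have hover : μ.real (S p ∩ ⋃ k : ℕ, S (p + 1 + k)) ≤ K * w p * T w (p + 1) := by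
    have h0 : 0 ≤ K * w p := mul_nonneg hK (hw p)
    rw [Set.inter_iUnion, Measure.real]
    refine ENNReal.toReal_le_of_le_ofReal (mul_nonneg h0 (T_nonneg hw _)) ?_
    refine (measure_iUnion_le _).trans ?_
    unfold T
    rw [← tsum_mul_left, ENNReal.ofReal_tsum_of_nonneg (fun k => mul_nonneg h0 (hw _))
      ((summable_T hs (p + 1)).mul_left _)]
    refine ENNReal.tsum_le_tsum fun k => ?_
    rw [← ENNReal.ofReal_toReal (measure_ne_top μ (S p ∩ S (p + 1 + k)))]
    exact ENNReal.ofReal_le_ofReal (hpair p h4 (p + 1 + k) (by omega))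
  have e : μ.real (Last S p) = μ.real (S p) - μ.real (S p ∩ ⋃ k : ℕ, S (p + 1 + k)) := by
    rw [last_eq, measureReal_sdiff (Set.inter_subset_left)
      ((hS p).inter (MeasurableSet.iUnion fun k => hS _))]
  have h5 : 0 ≤ μ.real (S p ∩ ⋃ k : ℕ, S (p + 1 + k)) := measureReal_nonneg
  have h6 : K * w p * T w (p + 1) ≤ ε / 2 * w p := by
    calc K * w p * T w (p + 1) = (K * T w (p + 1)) * w p := by ring
      _ ≤ ε / 2 * w p := mul_le_mul_of_nonneg_right h3.le (hw p)
  rw [e]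
  rw [abs_le] at h2 ⊢
  have h7 := hw p
  constructor
  · nlinarith [h2.1]
  · nlinarith [h2.2]

/-- a finite set of indices is counted by the sum of its indicator -/
lemma ncard_eq {s : Set ℕ} (hs : s.Finite) :
    (s.ncard : ℝ) = ∑' m, s.indicator (fun _ => (1 : ℝ)) m := by
  classical
  rw [tsum_eq_sum (s := hs.toFinset)]
  · rw [Set.ncard_eq_toFinset_card s hs]
    have : ∀ m ∈ hs.toFinset, s.indicator (fun _ => (1 : ℝ)) m = 1 := by
      intro m hm
      rw [Set.indicator_of_mem (hs.mem_toFinset.1 hm)]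
    rw [Finset.sum_congr rfl this]
    simp
  · intro m hm
    rw [Set.indicator_of_notMem]
    intro h
    exact hm (hs.mem_toFinset.2 h)

/-- the mean number of indices from `n` on -/
theorem mean_eq {S : ℕ → Set Ω} (hS : ∀ m, MeasurableSet (S m))
    (hsum : Summable fun m => μ.real (S m)) (n : ℕ) :
    ∫ y, (({m | n ≤ m ∧ y ∈ S m}).ncard : ℝ) ∂μ = T (fun m => μ.real (S m)) n := by
  have hfin := fin hsum
  set F : ℕ → Ω → ℝ := fun k y => (S (n + k)).indicator (fun _ => (1 : ℝ)) y with hF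
  have hF0 : ∀ k y, 0 ≤ F k y := fun k y => Set.indicator_nonneg (fun _ _ => zero_le_one) _
  have hF1 : ∀ k y, F k y ≤ 1 := fun k y => Set.indicator_le_self' (fun _ _ => zero_le_one) _
  have hFi : ∀ k, Integrable (F k) μ := by
    intro k
    exact (integrable_const (1 : ℝ)).indicator (hS (n + k))
  have hval : ∀ k, ∫ y, F k y ∂μ = μ.real (S (n + k)) := by
    intro k
    simp only [hF]
    rw [integral_indicator_const _ (hS (n + k)), smul_eq_mul, mul_one]
  have hsn : Summable fun k => ∫ y, ‖F k y‖ ∂μ := by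
    refine (summable_T hsum n).congr fun k => ?_
    rw [← hval k]
    exact integral_congr_ae (Eventually.of_forall fun y => (Real.norm_of_nonneg (hF0 k y)).symm)
  have h2 := integral_tsum_of_summable_integral_norm hFi hsn
  simp only [hval] at h2
  unfold T
  rw [h2]
  refine integral_congr_ae ?_
  filter_upwards [hfin] with y hy
  have hfs : ({m | n ≤ m ∧ y ∈ S m}).Finite := hy.subset fun m hm => hm.2
  have hinj : Function.Injective (fun k : ℕ => n + k) := fun a b h => by simpa using h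
  have hset : {m | n ≤ m ∧ y ∈ S m} = (fun k : ℕ => n + k) '' {k | y ∈ S (n + k)} := by
    ext m
    constructor
    · rintro ⟨h3, h4⟩
      refine ⟨m - n, ?_, by simp only; omega⟩
      show y ∈ S (n + (m - n))
      rwa [show n + (m - n) = m by omega]
    · rintro ⟨k, h3, rfl⟩
      exact ⟨Nat.le_add_right _ _, h3⟩
  have hfk : ({k | y ∈ S (n + k)}).Finite := by
    rw [hset] at hfs
    exact Set.Finite.of_finite_image hfs hinj.injOn
  rw [hset, Set.ncard_image_of_injective _ hinj, ncard_eq hfk]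
  refine tsum_congr fun k => ?_
  simp only [hF]
  classical
  rw [Set.indicator_apply, Set.indicator_apply]
  rfl

/-- the event that there is an index from `n` on -/
theorem tail_eq {S : ℕ → Set Ω} (hS : ∀ m, MeasurableSet (S m))
    (hsum : Summable fun m => μ.real (S m)) (n : ℕ) :
    μ.real {y | ∃ m, n ≤ m ∧ y ∈ S m} = T (fun m => μ.real (Last S m)) n := by
  have hsub : ∀ m, Last S m ⊆ S m := fun m y hy => hy.1
  have hsum' : Summable fun m => μ.real (Last S m) :=
    Summable.of_nonneg_of_le (fun m => measureReal_nonneg) (fun m => measureReal_mono (hsub m)) hsum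
  rw [← mean_eq (last_meas hS) hsum' n]
  have hm : MeasurableSet {y | ∃ k, n ≤ k ∧ y ∈ S k} := by
    have : {y | ∃ k, n ≤ k ∧ y ∈ S k} = ⋃ k : ℕ, ⋃ _ : n ≤ k, S k := by
      ext y; simp
    rw [this]
    exact MeasurableSet.iUnion fun k => MeasurableSet.iUnion fun _ => hS k
  have e : ∫ y, ({y | ∃ m, n ≤ m ∧ y ∈ S m}).indicator (fun _ => (1 : ℝ)) y ∂μ =
      μ.real {y | ∃ m, n ≤ m ∧ y ∈ S m} := by
    rw [integral_indicator_const _ hm, smul_eq_mul, mul_one]
  rw [← e]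
  refine integral_congr_ae ?_
  filter_upwards [fin hsum] with y hy
  have hfs : ({m | n ≤ m ∧ y ∈ S m}).Finite := hy.subset fun m hm => hm.2
  by_cases hex : ∃ m, n ≤ m ∧ y ∈ S m
  · rw [Set.indicator_of_mem (show y ∈ {y | ∃ m, n ≤ m ∧ y ∈ S m} from hex)]
    obtain ⟨m1, hm1⟩ := hex
    obtain ⟨m, hm, hmax⟩ := hfs.exists_maximal ⟨m1, hm1⟩
    have hset : {m | n ≤ m ∧ y ∈ Last S m} = {m} := by
      ext k
      simp only [Set.mem_ofPred_eq, Set.mem_singleton_iff]
      constructor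
      · rintro ⟨h1, h2⟩
        have h3 : m ≤ k := h2.2 hm.2
        have h4 : k ≤ m := by
          rcases le_total k m with h5 | h5
          · exact h5
          · exact hmax (show k ∈ {m | n ≤ m ∧ y ∈ S m} from ⟨h1, h2.1⟩) h5
        omega
      · rintro rfl
        refine ⟨hm.1, hm.2, fun j hj => ?_⟩
        rcases le_total j k with h5 | h5
        · exact h5
        · exact hmax (show j ∈ {m | n ≤ m ∧ y ∈ S m} from ⟨hm.1.trans h5, hj⟩) h5
    rw [hset, Set.ncard_singleton, Nat.cast_one]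
  · rw [Set.indicator_of_notMem (show y ∉ {y | ∃ m, n ≤ m ∧ y ∈ S m} from hex)]
    have hset : {m | n ≤ m ∧ y ∈ Last S m} = ∅ := by
      ext k
      simp only [Set.mem_ofPred_eq, Set.mem_empty_iff_false, iff_false]
      rintro ⟨h1, h2⟩
      exact hex ⟨k, h1, h2.1⟩
    rw [hset, Set.ncard_empty, Nat.cast_zero]

/-- one index and a later one -/
lemma overlap {S : ℕ → Set Ω} {w : ℕ → ℝ} {K : ℝ} {N : ℕ}
    (hw : ∀ p, 0 ≤ w p) (hs : Summable w) (hK : 0 ≤ K)
    (hpair : ∀ p ≥ N, ∀ q > p, μ.real (S p ∩ S q) ≤ K * w p * w q) {p : ℕ} (hp : N ≤ p) :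
    μ (S p ∩ ⋃ k : ℕ, S (p + 1 + k)) ≤ ENNReal.ofReal (K * w p * T w (p + 1)) := by
  have h0 : 0 ≤ K * w p := mul_nonneg hK (hw p)
  rw [Set.inter_iUnion]
  refine (measure_iUnion_le _).trans ?_
  unfold T
  rw [← tsum_mul_left, ENNReal.ofReal_tsum_of_nonneg (fun k => mul_nonneg h0 (hw _))
    ((summable_T hs (p + 1)).mul_left _)]
  refine ENNReal.tsum_le_tsum fun k => ?_
  rw [← ENNReal.ofReal_toReal (measure_ne_top μ (S p ∩ S (p + 1 + k)))]
  exact ENNReal.ofReal_le_ofReal (hpair p hp (p + 1 + k) (by omega))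

lemma T_anti {w : ℕ → ℝ} (hw : ∀ p, 0 ≤ w p) (hs : Summable w) {m n : ℕ} (h : m ≤ n) :
    T w n ≤ T w m := by
  obtain ⟨j, rfl⟩ := Nat.exists_eq_add_of_le h
  have h1 := (summable_T hs m).sum_add_tsum_nat_add j
  have h2 : ∑' k : ℕ, w (m + (k + j)) = T w (m + j) := by
    unfold T
    refine tsum_congr fun k => ?_
    congr 1
    omega
  have h3 : 0 ≤ ∑ k ∈ Finset.range j, w (m + k) := Finset.sum_nonneg fun _ _ => hw _
  have h4 : T w m = ∑' k : ℕ, w (m + k) := rfl
  linarith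

/-- two indices from `n` on -/
theorem two_le {S : ℕ → Set Ω} {w : ℕ → ℝ} {K : ℝ} {N : ℕ}
    (hw : ∀ p, 0 ≤ w p) (hs : Summable w) (hK : 0 ≤ K)
    (hpair : ∀ p ≥ N, ∀ q > p, μ.real (S p ∩ S q) ≤ K * w p * w q) {n : ℕ} (hn : N ≤ n) :
    μ.real {y | ∃ p q, n ≤ p ∧ p < q ∧ y ∈ S p ∧ y ∈ S q} ≤ K * T w n ^ 2 := by
  have hT := T_nonneg hw n
  have hsub : {y | ∃ p q, n ≤ p ∧ p < q ∧ y ∈ S p ∧ y ∈ S q} ⊆
      ⋃ j : ℕ, (S (n + j) ∩ ⋃ k : ℕ, S (n + j + 1 + k)) := by
    rintro y ⟨p, q, h1, h2, h3, h4⟩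
    refine Set.mem_iUnion.2 ⟨p - n, ?_, Set.mem_iUnion.2 ⟨q - (p + 1), ?_⟩⟩
    · rwa [show n + (p - n) = p by omega]
    · rwa [show n + (p - n) + 1 + (q - (p + 1)) = q by omega]
  rw [Measure.real]
  refine ENNReal.toReal_le_of_le_ofReal (by positivity) ?_
  refine (measure_mono hsub).trans ((measure_iUnion_le _).trans ?_)
  have e : K * T w n ^ 2 = ∑' j : ℕ, K * T w n * w (n + j) := by
    rw [tsum_mul_left, sq]
    unfold T
    ring
  rw [e, ENNReal.ofReal_tsum_of_nonneg (fun j => mul_nonneg (mul_nonneg hK hT) (hw _))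
    ((summable_T hs n).mul_left _)]
  refine ENNReal.tsum_le_tsum fun j => ?_
  refine (overlap hw hs hK hpair (by omega)).trans (ENNReal.ofReal_le_ofReal ?_)
  have h5 := T_anti hw hs (show n ≤ n + j + 1 by omega)
  calc K * w (n + j) * T w (n + j + 1) ≤ K * w (n + j) * T w n :=
        mul_le_mul_of_nonneg_left h5 (mul_nonneg hK (hw _))
    _ = _ := by ring

end Pool.Agent.V1193.LE
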